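import Pool.Agent.Lib.MP_07573f_lc.Defs

/-! A two-stage pigeonhole argument. -/

set_option autoImplicit false

namespace Pool.Agent.Lib.MP_07573f_lc

open SimpleGraph
open scoped Classical

/-- binary code of a bit string -/
def code : List Bool → ℕ
  | [] => 1
  | b :: l => 2 * code l + b.toNat

theorem code_pos : ∀ l, 0 < code l
  | [] => one_pos
  | _ :: l => by have := code_pos l; simp only [code]; omega

theorem code_lt : ∀ l : List Bool, code l < 2 ^ (l.length + 1)
  | [] => by simp [code]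
  | b :: l => by
    have := code_lt l
    have := b.toNat_le
    simp only [code, List.length_cons, pow_succ] at *
    omega

theorem code_inj : ∀ l l', code l = code l' → l = l'
  | [], [], _ => rfl
  | [], _ :: l, h => by have := code_pos l; simp only [code] at h; omega
  | _ :: l, [], h => by have := code_pos l; simp only [code] at h; omega
  | b :: l, b' :: l', h => by
    simp only [code] at h
    have : code l = code l' ∧ b = b' := by
      cases b <;> cases b' <;> simp only [Bool.toNat_false, Bool.toNat_true] at h <;>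
        first | exact ⟨by omega, rfl⟩ | omega
    rw [code_inj l l' this.1, this.2]

variable {n : ℕ}

/-- bipartite graph between `R` and its complement -/
def bip (R : Set (Fin n)) (e : Fin n → Fin n → Prop) : SimpleGraph (Fin n) where
  Adj u v := (u ∈ R ∧ v ∉ R ∧ e u v) ∨ (v ∈ R ∧ u ∉ R ∧ e v u)
  symm := ⟨fun _ _ h => h.symm⟩
  loopless := ⟨fun _ h => by tauto⟩

theorem nb_row {R : Set (Fin n)} {e : Fin n → Fin n → Prop} {u : Fin n} (h : u ∈ R) :
    closedNb (bip R e) u = insert u {v | v ∉ R ∧ e u v} := by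
  ext v; simp [closedNb, bip, h]

theorem nb_col {R : Set (Fin n)} {e : Fin n → Fin n → Prop} {v : Fin n} (h : v ∉ R) :
    closedNb (bip R e) v = insert v {u | u ∈ R ∧ e u v} := by
  ext u; simp [closedNb, bip, h]

theorem no_p4 (R s y : Set (Fin n)) :
    ¬ Nonempty (pathGraph 4 ↪g bip R fun u v => u ∈ s ↔ v ∈ y) := by
  rintro ⟨φ⟩
  have h1 := φ.map_adj_iff (v := 0) (w := 1)
  have h2 := φ.map_adj_iff (v := 1) (w := 2)
  have h3 := φ.map_adj_iff (v := 2) (w := 3)
  have h4 := φ.map_adj_iff (v := 0) (w := 3)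
  simp only [pathGraph_adj, bip] at h1 h2 h3 h4
  have h1' := h1.2 (by decide)
  have h2' := h2.2 (by decide)
  have h3' := h3.2 (by decide)
  have h4' := mt h4.1 (by decide)
  clear h1 h2 h3 h4
  tauto

theorem has_p4 {G : SimpleGraph (Fin n)} {a b c d : Fin n} (h1 : G.Adj a b) (h2 : G.Adj b c)
    (h3 : G.Adj c d) (h4 : ¬ G.Adj a c) (h5 : ¬ G.Adj b d) (h6 : ¬ G.Adj a d) :
    Nonempty (pathGraph 4 ↪g G) := by
  have n1 := h1.ne
  have n2 := h2.ne
  have n3 := h3.ne
  have n4 : a ≠ c := fun e => h6 (e ▸ h3)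
  have n5 : b ≠ d := fun e => h6 (e ▸ h1)
  have n6 : a ≠ d := fun e => h4 (e ▸ h3.symm)
  have s1 := h1.symm
  have s2 := h2.symm
  have s3 := h3.symm
  have s4 : ¬ G.Adj c a := fun h => h4 h.symm
  have s5 : ¬ G.Adj d b := fun h => h5 h.symm
  have s6 : ¬ G.Adj d a := fun h => h6 h.symm
  refine ⟨⟨⟨![a, b, c, d], fun i j h => ?_⟩, fun {i j} => ?_⟩⟩
  · fin_cases i <;> fin_cases j <;> simp_all
  · fin_cases i <;> fin_cases j <;> simp [pathGraph_adj, *]

theorem prop1 {a b c d : Prop} (h : ¬ (c ↔ d)) (h2 : ¬ (a ↔ b)) : (a ↔ c) ↔ (b ↔ d) := by tauto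

theorem prop2 {a b : Prop} (h : ¬ (a ↔ b)) : (b → ¬ a) ∧ (¬ b → a) := by tauto

theorem main {L K : ℕ} {f : Fin n → Set (Fin n) → List Bool} {g : (Fin n → List Bool) → Bool}
    (h : SolvesP4 f g L) (U0 : Finset (Fin n)) (hU0 : 2 * L + 3 ≤ U0.card)
    (hw : ∀ u ∈ U0, OneWay K u (f u)) : n ≤ (2 * L + 3) * (2 * K + 1) + 4 := by
  by_contra hn
  rw [not_le] at hn
  obtain ⟨U, hUU, hU⟩ := Finset.exists_subset_card_eq hU0
  have hm : 2 * L + 3 ≤ (2 * L + 3) * (2 * K + 1) := Nat.le_mul_of_pos_right _ (by omega)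
  obtain ⟨T, hT, hT4⟩ := Finset.exists_subset_card_eq (s := Uᶜ) (n := 4)
    (by rw [Finset.card_compl, Fintype.card_fin]; omega)
  obtain ⟨a0, a1, b0, b1, d1, d2, d3, d4, d5, d6, rfl⟩ := Finset.card_eq_four.1 hT4
  have t1 : a0 ∉ U := Finset.mem_compl.1 (hT (by simp))
  have t2 : a1 ∉ U := Finset.mem_compl.1 (hT (by simp))
  have t3 : b0 ∉ U := Finset.mem_compl.1 (hT (by simp))
  have t4 : b1 ∉ U := Finset.mem_compl.1 (hT (by simp))
  set W : Finset (Fin n) := Uᶜ \ {a0, a1, b0, b1} with hW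
  have hWc : W.card + (2 * L + 3) + 4 = n := by
    rw [hW, Finset.card_sdiff_of_subset hT, Finset.card_compl, Fintype.card_fin]; omega
  have hWm : ∀ w, w ∈ W ↔ w ∉ U ∧ w ≠ a0 ∧ w ≠ a1 ∧ w ≠ b0 ∧ w ≠ b1 := fun w => by
    simp [hW, not_or]
  set R : Set (Fin n) := {u | u ∈ U ∨ u = a0 ∨ u = a1} with hR
  have hWR : ∀ w ∈ W, w ∉ R := fun w hw => by
    have := (hWm w).1 hw
    simp only [hR, Set.mem_ofPred_eq, this.1, this.2.1, this.2.2.1, or_self, not_false_eq_true]
  set cn : Fin n → Finset (Fin n) → Prop → Set (Fin n) := fun w x p =>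
    insert w {u | u ∈ R ∧ (u ∈ x ∨ u = a1 ↔ p)} with hcn
  set κ : Fin n → Finset (Fin n) → ℕ × ℕ := fun w x =>
    (code (f w (cn w x True)), code (f w (cn w x False))) with hκ
  have hlen : ∀ w ∈ W, ∀ x p, code (f w (cn w x p)) < 2 ^ (L + 1) := fun w hw x p => by
    have := (h (bip R fun u _ => u ∈ x ∨ u = a1 ↔ p)).1 w
    rw [nb_col (hWR w hw)] at this
    exact (code_lt _).trans_le (Nat.pow_le_pow_right (by omega) (by simpa [hcn] using this))
  set lone : Fin n → Finset (Fin n) → Prop := fun w x => ∀ x' ⊆ U, κ w x' = κ w x → x' = x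
    with hlone
  have c1 : ∀ w ∈ W, (U.powerset.filter fun x => lone w x).card ≤ 2 ^ (L + 1) * 2 ^ (L + 1) := by
    intro w hw
    have : (Finset.range (2 ^ (L + 1)) ×ˢ Finset.range (2 ^ (L + 1))).card =
        2 ^ (L + 1) * 2 ^ (L + 1) := by simp
    rw [← this]
    refine Finset.card_le_card_of_injOn (κ w) (fun x _ => ?_) fun x hx x' hx' e => ?_
    · simp only [hκ, Finset.coe_product, Finset.coe_range, Set.mem_prod, Set.mem_Iio]
      exact ⟨hlen w hw _ _, hlen w hw _ _⟩
    · simp only [Finset.coe_filter, Finset.mem_powerset, Set.mem_ofPred_eq] at hx hx'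
      exact hx'.2 x hx.1 e
  obtain ⟨s, hs, c2⟩ : ∃ s ∈ U.powerset, 2 * (W.filter fun w => lone w s).card ≤ W.card := by
    refine Finset.exists_le_of_sum_le ⟨∅, by simp⟩ ?_
    have e : ∑ x ∈ U.powerset, (W.filter fun w => lone w x).card =
        ∑ w ∈ W, (U.powerset.filter fun x => lone w x).card := by
      simp only [Finset.card_filter]
      exact Finset.sum_comm
    rw [← Finset.mul_sum, e, Finset.sum_const, Finset.card_powerset, hU, smul_eq_mul]
    have := Finset.sum_le_card_nsmul W _ _ c1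
    rw [smul_eq_mul] at this
    refine (Nat.mul_le_mul_left 2 this).trans (le_of_eq ?_)
    ring
  rw [Finset.mem_powerset] at hs
  set W' := W.filter fun w => ¬ lone w s with hW'
  have c3 : (2 * L + 3) * K < W'.card := by
    have := Finset.card_filter_add_card_filter_not (s := W) (fun w => lone w s)
    have e : (2 * L + 3) * (2 * K + 1) = 2 * ((2 * L + 3) * K) + (2 * L + 3) := by ring
    rw [← hW'] at this
    omega
  have : ∀ w, ∃ x : Finset (Fin n), x ⊆ U ∧ κ w x = κ w s ∧ (w ∈ W' → x ≠ s) := fun w => by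
    by_cases hw : w ∈ W'
    · have := (Finset.mem_filter.1 hw).2
      simp only [hlone, not_forall] at this
      obtain ⟨x, h1, h2, h3⟩ := this
      exact ⟨x, h1, h2, fun _ => h3⟩
    · exact ⟨s, hs, rfl, fun h => absurd h hw⟩
  choose s' p1 p2 p3 using this
  have p4 : ∀ w p, f w (cn w (s' w) p) = f w (cn w s p) := fun w p => by
    have := p2 w
    simp only [hκ, Prod.mk.injEq] at this
    by_cases hp : p
    · rw [eq_true hp]; exact code_inj _ _ this.1
    · rw [eq_false hp]; exact code_inj _ _ this.2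
  set E : Fin n → Set (Fin n) := fun u => {w | w ∈ W' ∧ ¬ (u ∈ s' w ↔ u ∈ s)} with hE
  choose σ hσ using fun u : U => hw u (hUU u.2) (E u)
  obtain ⟨y, hy, y', hy', hne, heq⟩ := Finset.exists_ne_map_eq_of_card_lt_of_maps_to
    (s := W'.powerset) (t := (Finset.univ : Finset (U → Fin (2 ^ K))))
    (f := fun y u => σ u {v | v ∈ E u ∧ (u.1 ∈ s ↔ v ∈ y)}) (by
      rw [Finset.card_powerset, Finset.card_univ, Fintype.card_fun, Fintype.card_fin,
        Fintype.card_coe, hU, ← pow_mul, mul_comm K]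
      exact Nat.pow_lt_pow_right (by omega) c3) (fun _ _ => Finset.mem_coe.2 (Finset.mem_univ _))
  rw [Finset.mem_powerset] at hy hy'
  set τ : Fin n → Finset (Fin n) := fun v => if (v ∈ y ↔ v ∈ y') then s else s' v with hτ
  have hτU : ∀ v, τ v ⊆ U := fun v => by
    simp only [hτ]; split_ifs; exacts [hs, p1 v]
  have key : (fun i => f i (closedNb (bip R fun u v => u ∈ τ v ∨ u = a1 ↔ v ∈ y ∨ v = b1) i)) =
      fun i => f i (closedNb (bip R fun u v => u ∈ {u | u ∈ s ∨ u = a1} ↔
        v ∈ {v | v ∈ y ∨ v = b1}) i) := by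
    funext i
    by_cases hi : i ∈ R
    · rw [nb_row hi, nb_row hi]
      by_cases hiU : i ∈ U
      · have ne1 : i ≠ a1 := fun e => t2 (e ▸ hiU)
        have hEW : ∀ v ∈ E i, v ∉ R ∧ v ≠ b1 := fun v hv =>
          ⟨hWR v (Finset.mem_filter.1 hv.1).1, ((hWm v).1 (Finset.mem_filter.1 hv.1).1).2.2.2.2⟩
        have := hσ ⟨i, hiU⟩ _ _ (insert i {v | v ∉ R ∧ v ∉ E i ∧ (i ∈ s ↔ v ∈ y ∨ v = b1)})
          (fun v hv => hv.1) (fun v hv => hv.1) (by
            rintro v (rfl | hv)
            · exact fun h => (hEW _ h).1 hi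
            · exact hv.2.1) (by simp) (congrFun heq ⟨i, hiU⟩)
        convert this.symm using 2
        · ext v
          simp only [Set.mem_insert_iff, Set.mem_ofPred_eq, Set.mem_union, ne1, or_false]
          by_cases hv : v ∈ E i
          · have h1 := hEW v hv
            have h2 : (i ∈ τ v ↔ v ∈ y) ↔ (i ∈ s ↔ v ∈ y') := by
              simp only [hτ]
              split_ifs with h'
              · rw [h']
              · exact prop1 h' hv.2
            simp only [h1.1, h1.2, hv, h2, not_false_eq_true, true_and, or_false, not_true,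
              false_and, and_false]
            exact or_comm
          · have : i ∈ τ v ↔ i ∈ s := by
              simp only [hτ]
              split_ifs with h'
              · rfl
              · by_contra h''
                refine hv ⟨?_, h''⟩
                by_contra h3
                exact h' ⟨fun h => absurd (hy h) h3, fun h => absurd (hy' h) h3⟩
            simp only [hv, this, not_false_eq_true, true_and, false_and, false_or]
        · ext v
          simp only [Set.mem_insert_iff, Set.mem_ofPred_eq, Set.mem_union, ne1, or_false]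
          by_cases hv : v ∈ E i
          · have h1 := hEW v hv
            simp only [h1.1, h1.2, hv, not_false_eq_true, true_and, or_false, not_true,
              false_and, and_false]
            exact or_comm
          · simp only [hv, not_false_eq_true, true_and, false_and, false_or]
      · congr 2
        ext v
        have h1 : i ∉ τ v := fun h => hiU (hτU v h)
        have h2 : i ∉ s := fun h => hiU (hs h)
        simp [h1, h2]
    · rw [nb_col hi, nb_col hi]
      simp only [hτ]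
      split_ifs
      · rfl
      · exact p4 i _
  have yes := (h _).2.not.2 (no_p4 R {u | u ∈ s ∨ u = a1} {v | v ∈ y ∨ v = b1})
  rw [← key] at yes
  refine yes ((h _).2.2 ?_)
  obtain ⟨w, hw1⟩ : ∃ w, ¬ (w ∈ y ↔ w ∈ y') := by
    by_contra h'
    push Not at h'
    exact hne (Finset.ext h')
  have hw2 : w ∈ W' := by
    by_contra h3
    exact hw1 ⟨fun h => absurd (hy h) h3, fun h => absurd (hy' h) h3⟩
  obtain ⟨u, hu⟩ : ∃ u, ¬ (u ∈ s' w ↔ u ∈ s) := by
    by_contra h'
    push Not at h'
    exact p3 w hw2 (Finset.ext h')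
  have huU : u ∈ U := by
    by_contra h3
    exact hu ⟨fun h => absurd (p1 w h) h3, fun h => absurd (hs h) h3⟩
  have hwW := (hWm w).1 (Finset.mem_filter.1 hw2).1
  have q1 : τ w = s' w := by simp only [hτ, if_neg hw1]
  have nb : ∀ b, b = b0 ∨ b = b1 → b ∉ y ∧ τ b = s ∧ b ∉ R := fun b hb => by
    have : b ∉ W' := fun h => by
      have := (hWm b).1 (Finset.mem_filter.1 h).1
      exact hb.elim this.2.2.2.1 this.2.2.2.2
    have h1 : b ∉ y := fun h => this (hy h)
    have h2 : b ∉ y' := fun h => this (hy' h)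
    refine ⟨h1, by simp [hτ, h1, h2], ?_⟩
    simp only [hR, Set.mem_ofPred_eq]
    rcases hb with rfl | rfl
    · simp [t3, d2.symm, d4.symm]
    · simp [t4, d3.symm, d5.symm]
  obtain ⟨q2, q3, q4⟩ := nb b0 (Or.inl rfl)
  obtain ⟨q5, q6, q7⟩ := nb b1 (Or.inr rfl)
  have r1 : u ∈ R := Or.inl huU
  have r2 : a0 ∈ R := Or.inr (Or.inl rfl)
  have r3 : a1 ∈ R := Or.inr (Or.inr rfl)
  have r4 : w ∉ R := hWR w (Finset.mem_filter.1 hw2).1
  have r5 : u ≠ a1 := fun e => t2 (e ▸ huU)
  have r7 : w ≠ b1 := hwW.2.2.2.2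
  have r8 : a0 ∉ s := fun h => t1 (hs h)
  have r9 : a0 ∉ s' w := fun h => t1 (p1 w h)
  by_cases hus : u ∈ s <;> by_cases hwy : w ∈ y
  · have := (prop2 hu).1 hus
    refine has_p4 (a := u) (b := b1) (c := a1) (d := w) ?_ ?_ ?_ ?_ ?_ ?_ <;>
      simp [bip, q1, q6, q7, r1, r3, r4, r5, r7, hus, hwy, this]
  · have := (prop2 hu).1 hus
    refine has_p4 (a := a1) (b := b1) (c := u) (d := w) ?_ ?_ ?_ ?_ ?_ ?_ <;>
      simp [bip, q1, q6, q7, r1, r3, r4, r5, r7, hus, hwy, this]
  · have := (prop2 hu).2 hus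
    refine has_p4 (a := a0) (b := b0) (c := u) (d := w) ?_ ?_ ?_ ?_ ?_ ?_ <;>
      simp [bip, q1, q2, q3, q4, r1, r2, r4, r5, r7, r8, r9, d1, d6, hus, hwy, this]
  · have := (prop2 hu).2 hus
    refine has_p4 (a := u) (b := b0) (c := a0) (d := w) ?_ ?_ ?_ ?_ ?_ ?_ <;>
      simp [bip, q1, q2, q3, q4, r1, r2, r4, r5, r7, r8, r9, d1, d6, hus, hwy, this]

end Pool.Agent.Lib.MP_07573f_lc
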