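import Mathlib

/-! One-round protocols for the induced four-vertex path problem. -/

set_option autoImplicit false

namespace Pool.Agent.Lib.MP_07573f_lc

/-- The closed neighbourhood of `i` in `G`, the input of vertex `i`. -/
def closedNb {n : ℕ} (G : SimpleGraph (Fin n)) (i : Fin n) : Set (Fin n) :=
  insert i (G.neighborSet i)

/-- The protocol with message functions `f i` and referee `g` decides, on all graphs with `n`
vertices, whether there is an induced path on four vertices, and all messages sent have at most
`L` bits. -/
def SolvesP4 {n : ℕ} (f : Fin n → Set (Fin n) → List Bool) (g : (Fin n → List Bool) → Bool)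
    (L : ℕ) : Prop :=
  ∀ G : SimpleGraph (Fin n), (∀ i, (f i (closedNb G i)).length ≤ L) ∧
    (g (fun i => f i (closedNb G i)) = true ↔ Nonempty (SimpleGraph.pathGraph 4 ↪g G))

/-- The message function `φ` of vertex `u` has deterministic one-way communication complexity at
most `K` for every partition of the vertex set: for every set `E` there is a `K`-bit summary `σ`
of the part `A` of the input inside `E` which, with the part `B ∋ u` outside `E`, determines the
message. -/
def OneWay {n : ℕ} (K : ℕ) (u : Fin n) (φ : Set (Fin n) → List Bool) : Prop :=
  ∀ E : Set (Fin n), ∃ σ : Set (Fin n) → Fin (2 ^ K), ∀ A A' B : Set (Fin n),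
    A ⊆ E → A' ⊆ E → B ⊆ Eᶜ → u ∈ B → σ A = σ A' → φ (A ∪ B) = φ (A' ∪ B)

end Pool.Agent.Lib.MP_07573f_lc
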